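import Mathlib

/-! One-dimensional rearrangement for the Gaussian measure. -/

set_option autoImplicit false

namespace Pool.Agent.U570.GL

open MeasureTheory ProbabilityTheory Set
open scoped ENNReal

/-- the open interval, centred at the origin, as long as the convex hull of `I` -/
def J (I : Set ℝ) : Set ℝ := {t | ∃ a ∈ I, ∃ b ∈ I, 2 * |t| < b - a}

theorem J_open (I : Set ℝ) : IsOpen (J I) := by
  have h : J I = ⋃ a ∈ I, ⋃ b ∈ I, {t : ℝ | 2 * |t| < b - a} := by
    ext t
    simp only [J, mem_ofPred_eq, mem_iUnion, exists_prop]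
  rw [h]
  refine isOpen_biUnion fun a _ => isOpen_biUnion fun b _ => ?_
  exact isOpen_lt (continuous_const.mul continuous_abs) continuous_const

theorem vol_le (I : Set ℝ) : volume I ≤ volume (J I) := by
  refine (Real.volume_le_diam I).trans ?_
  refine Metric.ediam_le fun a ha b hb => ?_
  have key : ∀ a ∈ I, ∀ b ∈ I, ENNReal.ofReal (b - a) ≤ volume (J I) := by
    intro a ha b hb
    have h1 : Metric.ball (0 : ℝ) ((b - a) / 2) ⊆ J I := by
      intro t ht
      rw [Metric.mem_ball, Real.dist_eq, sub_zero] at ht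
      exact ⟨a, ha, b, hb, by linarith⟩
    have h2 := measure_mono (μ := volume) h1
    rw [Real.volume_ball] at h2
    have h3 : 2 * ((b - a) / 2) = b - a := by ring
    rwa [h3] at h2
  rw [edist_dist, Real.dist_eq]
  rcases le_total a b with h | h
  · rw [abs_sub_comm, abs_of_nonneg (by linarith)]
    exact key a ha b hb
  · rw [abs_of_nonneg (by linarith)]
    exact key b hb a ha

theorem pdf_le {s t : ℝ} (h : |t| ≤ |s|) : gaussianPDF 0 1 s ≤ gaussianPDF 0 1 t := by
  unfold gaussianPDF gaussianPDFReal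
  apply ENNReal.ofReal_le_ofReal
  apply mul_le_mul_of_nonneg_left _ (by positivity)
  apply Real.exp_le_exp.2
  have h1 : t ^ 2 ≤ s ^ 2 := sq_le_sq.2 h
  simp only [sub_zero, NNReal.coe_one, mul_one]
  linarith

theorem J_lt {I : Set ℝ} {s t : ℝ} (ht : t ∈ J I) (hs : s ∉ J I) : |t| ≤ |s| := by
  obtain ⟨a, ha, b, hb, h⟩ := ht
  by_contra hcon
  push Not at hcon
  exact hs ⟨a, ha, b, hb, by linarith⟩

/-- **an interval has at most the Gaussian measure of the centred interval of the same length** -/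
theorem bath (I : Set ℝ) (hI : MeasurableSet I) : gaussianReal 0 1 I ≤ gaussianReal 0 1 (J I) := by
  have hJ : MeasurableSet (J I) := (J_open I).measurableSet
  by_cases hu : J I = univ
  · rw [hu]
    exact measure_mono (subset_univ _)
  obtain ⟨s₀, hs₀⟩ := (ne_univ_iff_exists_notMem _).1 hu
  have hfin : volume (J I) ≠ ∞ := by
    have h1 : J I ⊆ Icc (-|s₀|) |s₀| := fun t ht => abs_le.1 (J_lt ht hs₀)
    exact ne_top_of_le_ne_top (by rw [Real.volume_Icc]; exact ENNReal.ofReal_ne_top) (measure_mono h1)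
  have hv : volume (I \ J I) ≤ volume (J I \ I) := by
    have h1 := measure_inter_add_sdiff (μ := volume) I hJ
    have h2 := measure_inter_add_sdiff (μ := volume) (J I) hI
    have h3 := vol_le I
    rw [← h1, ← h2, inter_comm (J I) I] at h3
    refine ENNReal.le_of_add_le_add_left ?_ h3
    exact ne_top_of_le_ne_top hfin (measure_mono inter_subset_right)
  have hg : gaussianReal 0 1 (I \ J I) ≤ gaussianReal 0 1 (J I \ I) := by
    rw [gaussianReal_apply 0 one_ne_zero, gaussianReal_apply 0 one_ne_zero]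
    obtain ⟨c, hc⟩ : ∃ c : ℝ≥0∞, c = ⨆ s ∈ (J I)ᶜ, gaussianPDF 0 1 s := ⟨_, rfl⟩
    have h1 : ∫⁻ x in I \ J I, gaussianPDF 0 1 x ≤ ∫⁻ _ in I \ J I, c := by
      refine setLIntegral_mono' (hI.diff hJ) fun x hx => ?_
      rw [hc]
      exact le_iSup₂ (f := fun s (_ : s ∈ (J I)ᶜ) => gaussianPDF 0 1 s) x hx.2
    have h2 : ∫⁻ _ in J I \ I, c ≤ ∫⁻ x in J I \ I, gaussianPDF 0 1 x := by
      refine setLIntegral_mono' (hJ.diff hI) fun x hx => ?_
      rw [hc]
      exact iSup₂_le fun s hs => pdf_le (J_lt hx.1 hs)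
    rw [setLIntegral_const] at h1 h2
    exact h1.trans ((mul_le_mul_right hv c).trans h2)
  have h1 := measure_inter_add_sdiff (μ := gaussianReal 0 1) I hJ
  have h2 := measure_inter_add_sdiff (μ := gaussianReal 0 1) (J I) hI
  rw [← h1, ← h2, inter_comm (J I) I]
  exact add_le_add_right hg _

end Pool.Agent.U570.GL
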