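import Mathlib
import Pool.Agent.U570.GL.One

/-! Steiner symmetrisation along a coordinate, and its iteration. -/

set_option autoImplicit false

namespace Pool.Agent.U570.GL

open MeasureTheory ProbabilityTheory Set
open scoped ENNReal

/-- the standard Gaussian measure on `Fin n → ℝ` -/
noncomputable abbrev P (n : ℕ) : Measure (Fin n → ℝ) := Measure.pi (fun _ : Fin n => gaussianReal 0 1)

variable {n : ℕ}

/-- Steiner symmetrisation in the `k`-th coordinate -/
def St (k : Fin n) (U : Set (Fin n → ℝ)) : Set (Fin n → ℝ) :=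
  {x | ∃ a b : ℝ, Function.update x k a ∈ U ∧ Function.update x k b ∈ U ∧ 2 * |x k| < b - a}

theorem St_open (k : Fin n) {U : Set (Fin n → ℝ)} (hU : IsOpen U) : IsOpen (St k U) := by
  have h : St k U = ⋃ a : ℝ, ⋃ b : ℝ, ((fun x : Fin n → ℝ => Function.update x k a) ⁻¹' U ∩
      ((fun x : Fin n → ℝ => Function.update x k b) ⁻¹' U ∩ {x | 2 * |x k| < b - a})) := by
    ext x
    simp only [St, mem_ofPred_eq, mem_iUnion, mem_inter_iff, mem_preimage]
  rw [h]
  refine isOpen_iUnion fun a => isOpen_iUnion fun b => ?_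
  refine (hU.preimage (by fun_prop)).inter ((hU.preimage (by fun_prop)).inter ?_)
  exact isOpen_lt (by fun_prop) continuous_const

theorem update_comb (k : Fin n) (x y : Fin n → ℝ) (s t a b : ℝ) :
    Function.update (s • x + t • y) k (s * a + t * b) =
      s • Function.update x k a + t • Function.update y k b := by
  funext i
  by_cases hi : i = k
  · subst hi
    simp
  · simp [Function.update_of_ne hi]

theorem St_convex (k : Fin n) {U : Set (Fin n → ℝ)} (hU : Convex ℝ U) : Convex ℝ (St k U) := by
  intro x hx y hy s t hs ht hst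
  obtain ⟨a, b, ha, hb, hab⟩ := hx
  obtain ⟨a', b', ha', hb', hab'⟩ := hy
  refine ⟨s * a + t * a', s * b + t * b', ?_, ?_, ?_⟩
  · rw [update_comb]
    exact hU ha ha' hs ht hst
  · rw [update_comb]
    exact hU hb hb' hs ht hst
  · have h1 : |(s • x + t • y) k| ≤ s * |x k| + t * |y k| := by
      have h2 : (s • x + t • y) k = s * x k + t * y k := by simp
      rw [h2]
      refine (abs_add_le _ _).trans (le_of_eq ?_)
      rw [abs_mul, abs_mul, abs_of_nonneg hs, abs_of_nonneg ht]
    rcases hs.lt_or_eq with h | h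
    · nlinarith [mul_lt_mul_of_pos_left hab h, mul_le_mul_of_nonneg_left hab'.le ht]
    · have ht1 : t = 1 := by linarith
      rw [← h] at h1 ⊢
      rw [ht1] at h1 ⊢
      linarith

theorem St_section (k : Fin n) (U : Set (Fin n → ℝ)) (x : Fin n → ℝ) :
    {t : ℝ | Function.update x k t ∈ St k U} = J {t : ℝ | Function.update x k t ∈ U} := by
  ext t
  simp only [St, J, mem_ofPred_eq, Function.update_idem, Function.update_self]
  constructor
  · rintro ⟨a, b, ha, hb, h⟩
    exact ⟨a, ha, b, hb, h⟩
  · rintro ⟨a, ha, b, hb, h⟩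
    exact ⟨a, b, ha, hb, h⟩

theorem St_measure (k : Fin n) {U : Set (Fin n → ℝ)} (hU : IsOpen U) : P n U ≤ P n (St k U) := by
  have hSt := St_open k hU
  have key := lintegral_le_of_lmarginal_le (μ := fun _ : Fin n => gaussianReal 0 1) {k}
    (f := U.indicator 1) (g := (St k U).indicator 1)
    (measurable_one.indicator hU.measurableSet) (measurable_one.indicator hSt.measurableSet) (by
      rw [lmarginal_singleton, lmarginal_singleton]
      intro x
      have h : ∀ S : Set (Fin n → ℝ), MeasurableSet S →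
          ∫⁻ t, S.indicator (1 : (Fin n → ℝ) → ℝ≥0∞) (Function.update x k t) ∂(gaussianReal 0 1) =
            gaussianReal 0 1 {t : ℝ | Function.update x k t ∈ S} := by
        intro S hS
        have hm : Measurable fun t : ℝ => Function.update x k t := by fun_prop
        have h1 : (fun t : ℝ => S.indicator (1 : (Fin n → ℝ) → ℝ≥0∞) (Function.update x k t)) =
            ({t : ℝ | Function.update x k t ∈ S}).indicator 1 := by
          funext t
          by_cases ht : Function.update x k t ∈ S
          · rw [indicator_of_mem ht, indicator_of_mem (show t ∈ {t : ℝ | Function.update x k t ∈ S} from ht)]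
            rfl
          · rw [indicator_of_notMem ht,
              indicator_of_notMem (show t ∉ {t : ℝ | Function.update x k t ∈ S} from ht)]
        rw [h1]
        exact lintegral_indicator_one (hm hS)
      show ∫⁻ t, U.indicator (1 : (Fin n → ℝ) → ℝ≥0∞) (Function.update x k t) ∂(gaussianReal 0 1) ≤
        ∫⁻ t, (St k U).indicator (1 : (Fin n → ℝ) → ℝ≥0∞) (Function.update x k t) ∂(gaussianReal 0 1)
      rw [h U hU.measurableSet, h _ hSt.measurableSet, St_section]
      refine bath _ ?_
      exact (hU.preimage (by fun_prop : Continuous fun t : ℝ => Function.update x k t)).measurableSet)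
  rwa [lintegral_indicator_one hU.measurableSet, lintegral_indicator_one hSt.measurableSet] at key

/-- the iterated symmetrisation -/
def W (U : Set (Fin n → ℝ)) : ℕ → Set (Fin n → ℝ)
  | 0 => U
  | j + 1 => if h : j < n then St ⟨j, h⟩ (W U j) else W U j

theorem W_succ (U : Set (Fin n → ℝ)) {j : ℕ} (h : j < n) : W U (j + 1) = St ⟨j, h⟩ (W U j) := by
  simp [W, h]

theorem W_open {U : Set (Fin n → ℝ)} (hU : IsOpen U) (j : ℕ) : IsOpen (W U j) := by
  induction j with
  | zero => exact hU
  | succ j ih =>
    by_cases h : j < n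
    · rw [W_succ U h]
      exact St_open _ ih
    · simpa [W, h] using ih

theorem W_convex {U : Set (Fin n → ℝ)} (hU : Convex ℝ U) (j : ℕ) : Convex ℝ (W U j) := by
  induction j with
  | zero => exact hU
  | succ j ih =>
    by_cases h : j < n
    · rw [W_succ U h]
      exact St_convex _ ih
    · simpa [W, h] using ih

theorem W_measure {U : Set (Fin n → ℝ)} (hU : IsOpen U) (j : ℕ) : P n U ≤ P n (W U j) := by
  induction j with
  | zero => exact le_rfl
  | succ j ih =>
    by_cases h : j < n
    · rw [W_succ U h]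
      exact ih.trans (St_measure _ (W_open hU j))
    · simpa [W, h] using ih

/-- the symmetrised sets do not see the signs of the coordinates already treated -/
theorem W_sym (U : Set (Fin n → ℝ)) (j : ℕ) (hj : j ≤ n) :
    ∀ x ∈ W U j, ∀ y : Fin n → ℝ, (∀ i : Fin n, i.val < j → |y i| = |x i|) →
      (∀ i : Fin n, j ≤ i.val → y i = x i) → y ∈ W U j := by
  induction j with
  | zero =>
    intro x hx y _ h
    have : y = x := funext fun i => h i (Nat.zero_le _)
    rwa [this]
  | succ j ih =>
    intro x hx y h1 h2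
    have hjn : j < n := hj
    rw [W_succ U hjn] at hx ⊢
    obtain ⟨a, b, ha, hb, hab⟩ := hx
    have aux : ∀ c : ℝ, Function.update x ⟨j, hjn⟩ c ∈ W U j → Function.update y ⟨j, hjn⟩ c ∈ W U j := by
      intro c hc
      refine ih hjn.le _ hc _ ?_ ?_
      · intro i hi
        have hne : i ≠ ⟨j, hjn⟩ := by
          rintro rfl
          exact lt_irrefl _ hi
        rw [Function.update_of_ne hne, Function.update_of_ne hne]
        exact h1 i (Nat.lt_succ_of_lt hi)
      · intro i hi
        by_cases hne : i = ⟨j, hjn⟩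
        · subst hne
          simp
        · rw [Function.update_of_ne hne, Function.update_of_ne hne]
          refine h2 i ?_
          rcases Nat.lt_or_eq_of_le hi with h | h
          · exact h
          · exact absurd (Fin.ext h.symm) hne
    refine ⟨a, b, aux a ha, aux b hb, ?_⟩
    rw [h1 ⟨j, hjn⟩ (Nat.lt_succ_self j)]
    exact hab

/-- points of the segment between two updates -/
theorem mem_between {S : Set (Fin n → ℝ)} (hS : Convex ℝ S) (x : Fin n → ℝ) (k : Fin n) {a b t : ℝ}
    (ha : Function.update x k a ∈ S) (hb : Function.update x k b ∈ S) (h1 : a ≤ t) (h2 : t ≤ b) :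
    Function.update x k t ∈ S := by
  rcases eq_or_lt_of_le (h1.trans h2) with h | h
  · have : t = a := by linarith
    rwa [this]
  · have hd : 0 < b - a := by linarith
    have h3 := hS ha hb (a := (b - t) / (b - a)) (b := (t - a) / (b - a)) (by
      apply div_nonneg <;> linarith) (by apply div_nonneg <;> linarith) (by
      rw [← add_div]
      rw [div_eq_one_iff_eq hd.ne']
      ring)
    rw [← update_comb] at h3
    have h4 : ((b - t) / (b - a)) • x + ((t - a) / (b - a)) • x = x := by
      rw [← add_smul, ← add_div, show b - t + (t - a) = b - a by ring, div_self hd.ne', one_smul]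
    have h5 : (b - t) / (b - a) * a + (t - a) / (b - a) * b = t := by
      field_simp
      ring
    rwa [h4, h5] at h3

/-- **the symmetrised sets avoid the outer corners.** -/
theorem W_avoid {U A : Set (Fin n → ℝ)} (hU : Convex ℝ U) {ρ : ℝ} (hA : ∀ a ∈ A, a ∉ U)
    (hstep : ∀ a ∈ A, ∀ k : Fin n, ∀ s t : ℝ, ρ < t - s →
      ∃ a' ∈ A, (∀ i, k < i → a' i = a i) ∧ s ≤ a' k ∧ a' k ≤ t) (j : ℕ) (hj : j ≤ n) :
    ∀ a ∈ A, ∀ x : Fin n → ℝ, (∀ i : Fin n, i.val < j → ρ ≤ 2 * |x i|) →
      (∀ i : Fin n, j ≤ i.val → x i = a i) → x ∉ W U j := by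
  induction j with
  | zero =>
    intro a ha x _ h hx
    have : x = a := funext fun i => h i (Nat.zero_le _)
    rw [this] at hx
    exact hA a ha hx
  | succ j ih =>
    intro a ha x h1 h2 hx
    have hjn : j < n := hj
    rw [W_succ U hjn] at hx
    obtain ⟨s, t, hs, ht, hst⟩ := hx
    have hρ : ρ < t - s := lt_of_le_of_lt (h1 ⟨j, hjn⟩ (Nat.lt_succ_self j)) hst
    obtain ⟨a', ha', h3, h4, h5⟩ := hstep a ha ⟨j, hjn⟩ s t hρ
    have h6 := mem_between (W_convex hU j) x ⟨j, hjn⟩ hs ht h4 h5
    refine ih hjn.le a' ha' _ ?_ ?_ h6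
    · intro i hi
      have hne : i ≠ ⟨j, hjn⟩ := by
        rintro rfl
        exact lt_irrefl _ hi
      rw [Function.update_of_ne hne]
      exact h1 i (Nat.lt_succ_of_lt hi)
    · intro i hi
      by_cases hne : i = ⟨j, hjn⟩
      · subst hne
        simp
      · rw [Function.update_of_ne hne]
        have hlt : j < i.val := by
          rcases Nat.lt_or_eq_of_le hi with h | h
          · exact h
          · exact absurd (Fin.ext h.symm) hne
        rw [h2 i hlt, h3 i (Fin.lt_def.2 hlt)]

/-- **the outcome of the symmetrisations.** -/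
theorem steiner {U A : Set (Fin n → ℝ)} (hUo : IsOpen U) (hU : Convex ℝ U) {ρ : ℝ}
    (hA : ∀ a ∈ A, a ∉ U) (hne : A.Nonempty)
    (hstep : ∀ a ∈ A, ∀ k : Fin n, ∀ s t : ℝ, ρ < t - s →
      ∃ a' ∈ A, (∀ i, k < i → a' i = a i) ∧ s ≤ a' k ∧ a' k ≤ t) :
    ∃ W : Set (Fin n → ℝ), IsOpen W ∧ Convex ℝ W ∧ P n U ≤ P n W ∧
      (∀ x ∈ W, ∀ y : Fin n → ℝ, (∀ i, |y i| = |x i|) → y ∈ W) ∧
      ∀ x : Fin n → ℝ, (∀ i, ρ ≤ 2 * |x i|) → x ∉ W := by
  obtain ⟨a, ha⟩ := hne
  refine ⟨W U n, W_open hUo n, W_convex hU n, W_measure hUo n, ?_, ?_⟩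
  · intro x hx y hy
    exact W_sym U n le_rfl x hx y (fun i _ => hy i) (fun i hi => absurd i.2 (not_lt.2 hi))
  · intro x hx
    exact W_avoid hU hA hstep n le_rfl a ha x (fun i _ => hx i) (fun i hi => absurd i.2 (not_lt.2 hi))

end Pool.Agent.U570.GL
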