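import Mathlib
import Pool.Agent.U570.GL.St

/-! Absolute continuity, and adjusting the Gaussian measure of a convex set to a given value. -/

set_option autoImplicit false

namespace Pool.Agent.U570.GL

open MeasureTheory ProbabilityTheory Set Filter
open scoped ENNReal Topology

theorem ac : ∀ n : ℕ, P n ≪ (volume : Measure (Fin n → ℝ)) := by
  intro n
  induction n with
  | zero =>
    rw [volume_pi]
    unfold P
    rw [Measure.pi_of_empty, Measure.pi_of_empty]
  | succ n ih =>
    refine Measure.AbsolutelyContinuous.mk fun s _ h0 => ?_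
    have e1 := measurePreserving_piFinSuccAbove (fun _ : Fin (n + 1) => gaussianReal 0 1) 0
    have e2 := volume_preserving_piFinSuccAbove (fun _ : Fin (n + 1) => ℝ) 0
    have hs : s = (MeasurableEquiv.piFinSuccAbove (fun _ : Fin (n + 1) => ℝ) 0) ⁻¹'
        ((MeasurableEquiv.piFinSuccAbove (fun _ : Fin (n + 1) => ℝ) 0).symm ⁻¹' s) := by
      rw [← preimage_comp]
      simp
    rw [hs, e2.measure_preimage_equiv] at h0
    rw [hs]
    unfold P
    rw [e1.measure_preimage_equiv]
    have h1 : (gaussianReal 0 1).prod (P n) ≪ (volume : Measure ℝ).prod (volume : Measure (Fin n → ℝ)) :=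
      Measure.AbsolutelyContinuous.prod (gaussianReal_absolutelyContinuous 0 one_ne_zero) ih
    exact h1 h0

variable {n : ℕ}

theorem null_hyper (k : Fin n) (t : ℝ) : P n {x | x k = t} = 0 := by
  have : NullSingletonClass (gaussianReal 0 1) := nullSingletonClass_gaussianReal one_ne_zero
  have h := (measurePreserving_eval (fun _ : Fin n => gaussianReal 0 1) k).measure_preimage
    (MeasurableSet.nullMeasurableSet (measurableSet_singleton t))
  rw [measure_singleton] at h
  exact h

theorem int_nonempty {V : Set (Fin n → ℝ)} (hc : Convex ℝ V) (hpos : P n V ≠ 0) :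
    (interior V).Nonempty := by
  by_contra h
  rw [not_nonempty_iff_eq_empty] at h
  apply hpos
  apply ac n
  have h1 : V ⊆ frontier V := by
    rw [frontier, h, sdiff_empty]
    exact subset_closure
  exact measure_mono_null h1 (hc.addHaar_frontier volume)

theorem closure_measure {V : Set (Fin n → ℝ)} (hc : Convex ℝ V) : P n (interior V) = P n V := by
  refine le_antisymm (measure_mono interior_subset) ?_
  have h1 : V ⊆ interior V ∪ frontier V := by
    intro x hx
    by_cases h : x ∈ interior V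
    · exact Or.inl h
    · exact Or.inr ⟨subset_closure hx, h⟩
  calc P n V ≤ P n (interior V) + P n (frontier V) := (measure_mono h1).trans (measure_union_le _ _)
    _ = P n (interior V) := by rw [ac n (hc.addHaar_frontier volume), add_zero]

/-- the coordinate sign changes -/
theorem closure_sym {W : Set (Fin n → ℝ)}
    (h : ∀ x ∈ W, ∀ y : Fin n → ℝ, (∀ i, |y i| = |x i|) → y ∈ W) :
    ∀ x ∈ closure W, ∀ y : Fin n → ℝ, (∀ i, |y i| = |x i|) → y ∈ closure W := by
  intro x hx y hy
  have hε : ∀ i, ∃ ε : ℝ, |ε| = 1 ∧ y i = ε * x i := by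
    intro i
    rcases abs_eq_abs.1 (hy i) with h | h
    · exact ⟨1, by simp, by simpa using h⟩
    · exact ⟨-1, by simp, by simpa using h⟩
  choose ε h1 h2 using hε
  have hy' : y = (fun z : Fin n → ℝ => fun i => ε i * z i) x := funext h2
  rw [hy']
  have hcont : Continuous fun z : Fin n → ℝ => fun i => ε i * z i := by fun_prop
  refine map_mem_closure hcont hx ?_
  intro z hz
  refine h z hz _ fun i => ?_
  rw [abs_mul, h1, one_mul]

/-- cut down a convex set to the prescribed Gaussian measure by a slab -/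
theorem cut (k : Fin n) {V : Set (Fin n → ℝ)} (hV : IsClosed V) {p : ℝ} (hp : 0 < p)
    (h : ENNReal.ofReal p < P n V) : ∃ c : ℝ, P n (V ∩ {x | |x k| ≤ c}) = ENNReal.ofReal p := by
  set ν : Measure ℝ := ((P n).restrict V).map (fun x => |x k|) with hν
  have hm : Measurable fun x : Fin n → ℝ => |x k| := by fun_prop
  have hIic : ∀ c : ℝ, ν (Iic c) = P n (V ∩ {x | |x k| ≤ c}) := by
    intro c
    rw [hν, Measure.map_apply hm measurableSet_Iic, Measure.restrict_apply (hm measurableSet_Iic),
      inter_comm]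
    rfl
  have : IsFiniteMeasure ν := by
    rw [hν]
    infer_instance
  have : NullSingletonClass ν := by
    constructor
    intro t
    rw [hν, Measure.map_apply hm (measurableSet_singleton t)]
    have h1 : (fun x : Fin n → ℝ => |x k|) ⁻¹' {t} ⊆ {x | x k = t} ∪ {x | x k = -t} := by
      intro x hx
      have hx' : |x k| = t := hx
      rcases abs_eq_abs.1 (show |x k| = |t| by rw [hx', ← hx', abs_abs]) with h | h
      · exact Or.inl h
      · exact Or.inr h
    refine measure_mono_null h1 ?_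
    refine le_antisymm ((Measure.restrict_apply_le _ _).trans ?_) bot_le
    refine (measure_union_le _ _).trans ?_
    rw [null_hyper, null_hyper, add_zero]
  -- the continuous function
  have hF : ∀ c : ℝ, ∫ _ in Iic c, (1 : ℝ) ∂ν = ν.real (Iic c) := by
    intro c
    simp
  have huniv : ν univ = P n V := by
    rw [hν, Measure.map_apply hm MeasurableSet.univ, preimage_univ, Measure.restrict_apply_univ]
  obtain ⟨R, hR⟩ : ∃ R : ℝ, 0 ≤ R ∧ ENNReal.ofReal p < ν (Iic R) := by
    have h1 := tendsto_measure_Iic_atTop ν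
    rw [huniv] at h1
    have h2 := (h1.eventually (lt_mem_nhds h)).and (eventually_ge_atTop (0 : ℝ))
    obtain ⟨R, h3, h4⟩ := h2.exists
    exact ⟨R, h4, h3⟩
  have hcont : ContinuousOn (fun c : ℝ => ∫ _ in Iic c, (1 : ℝ) ∂ν) (Iic R) :=
    IntegrableOn.continuousOn_Iic_primitive_Iic (by simp)
  have h0 : ν.real (Iic 0) = 0 := by
    have h1 : P n (V ∩ {x | |x k| ≤ 0}) = 0 := by
      refine measure_mono_null ?_ (null_hyper k 0)
      intro x hx
      exact abs_nonpos_iff.1 hx.2
    rw [Measure.real, hIic, h1, ENNReal.toReal_zero]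
  have hRp : p ≤ ν.real (Iic R) := by
    have h1 := ENNReal.toReal_mono (measure_ne_top ν _) hR.2.le
    rwa [ENNReal.toReal_ofReal hp.le] at h1
  have hivt := intermediate_value_Icc hR.1 (hcont.mono Icc_subset_Iic_self)
  simp only [hF] at hivt
  obtain ⟨c, _, hc⟩ := hivt ⟨by rw [h0]; exact hp.le, hRp⟩
  refine ⟨c, ?_⟩
  rw [← hIic, ← hc]
  simp only [Measure.real]
  exact (ENNReal.ofReal_toReal (measure_ne_top ν _)).symm

/-- **adjusting the outcome of the symmetrisations** -/
theorem adjust (hn : 0 < n) {U : Set (Fin n → ℝ)} (hU : Convex ℝ U)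
    (hsym : ∀ x ∈ U, ∀ y : Fin n → ℝ, (∀ i, |y i| = |x i|) → y ∈ U) {p : ℝ} (hp : 0 < p)
    (hpU : ENNReal.ofReal p ≤ P n U) {ρ : ℝ} (hav : ∀ x : Fin n → ℝ, (∀ i, ρ ≤ 2 * |x i|) → x ∉ U) :
    ∃ V : Set (Fin n → ℝ), IsClosed V ∧ Convex ℝ V ∧ (interior V).Nonempty ∧
      (∀ x ∈ V, ∀ y : Fin n → ℝ, (∀ i, |y i| = |x i|) → y ∈ V) ∧ P n V = ENNReal.ofReal p ∧
      ∀ x : Fin n → ℝ, (∀ i, ρ < 2 * |x i|) → x ∉ V := by
  have hav' : ∀ x : Fin n → ℝ, (∀ i, ρ < 2 * |x i|) → x ∉ closure U := by
    intro x hx hxU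
    have ho : IsOpen {y : Fin n → ℝ | ∀ i, ρ < 2 * |y i|} := by
      have : {y : Fin n → ℝ | ∀ i, ρ < 2 * |y i|} = ⋂ i, {y : Fin n → ℝ | ρ < 2 * |y i|} := by
        ext y
        simp
      rw [this]
      exact isOpen_iInter_of_finite fun i => isOpen_lt continuous_const (by fun_prop)
    obtain ⟨y, hy, hyU⟩ := mem_closure_iff.1 hxU _ ho hx
    exact hav y (fun i => (hy i).le) hyU
  have hpc : ENNReal.ofReal p ≤ P n (closure U) := hpU.trans (measure_mono subset_closure)
  have hpos : ENNReal.ofReal p ≠ 0 := by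
    rw [ne_eq, ENNReal.ofReal_eq_zero]
    linarith
  rcases hpc.lt_or_eq with h | h
  · obtain ⟨c, hc⟩ := cut ⟨0, hn⟩ isClosed_closure hp h
    have hcc : Convex ℝ {x : Fin n → ℝ | |x ⟨0, hn⟩| ≤ c} := by
      intro x hx y hy s t hs ht hst
      simp only [mem_ofPred_eq] at hx hy ⊢
      have h2 : (s • x + t • y) ⟨0, hn⟩ = s * x ⟨0, hn⟩ + t * y ⟨0, hn⟩ := by simp
      rw [h2]
      refine (abs_add_le _ _).trans ?_
      rw [abs_mul, abs_mul, abs_of_nonneg hs, abs_of_nonneg ht]
      calc s * |x ⟨0, hn⟩| + t * |y ⟨0, hn⟩| ≤ s * c + t * c :=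
            add_le_add (mul_le_mul_of_nonneg_left hx hs) (mul_le_mul_of_nonneg_left hy ht)
        _ = c := by rw [← add_mul, hst, one_mul]
    have hconv : Convex ℝ (closure U ∩ {x : Fin n → ℝ | |x ⟨0, hn⟩| ≤ c}) := hU.closure.inter hcc
    refine ⟨closure U ∩ {x | |x ⟨0, hn⟩| ≤ c}, ?_, hconv, ?_, ?_, hc, ?_⟩
    · exact isClosed_closure.inter (isClosed_le (by fun_prop) continuous_const)
    · refine int_nonempty hconv ?_
      rw [hc]
      exact hpos
    · intro x hx y hy
      refine ⟨closure_sym hsym x hx.1 y hy, ?_⟩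
      show |y ⟨0, hn⟩| ≤ c
      rw [hy]
      exact hx.2
    · intro x hx hxV
      exact hav' x hx hxV.1
  · refine ⟨closure U, isClosed_closure, hU.closure, ?_, closure_sym hsym, h.symm, hav'⟩
    refine int_nonempty hU.closure ?_
    rw [← h]
    exact hpos

end Pool.Agent.U570.GL
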