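import Mathlib

/-! The definitions of the statement of `MP_2cc29a_gt`. -/

set_option autoImplicit false

namespace Pool.Agent.U570.GL

open MeasureTheory ProbabilityTheory Set
open scoped ENNReal Pointwise

/-- Euclidean `n`-space -/
abbrev E (n : ℕ) : Type := EuclideanSpace ℝ (Fin n)

/-- the standard Gaussian probability measure of Euclidean `n`-space -/
noncomputable def gam (n : ℕ) : Measure (E n) := stdGaussian (E n)

/-- an `n`-lattice: the integer combinations of a basis of `ℝⁿ` -/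
def IsLattice {n : ℕ} (L : AddSubgroup (E n)) : Prop :=
  ∃ b : Module.Basis (Fin n) ℝ (E n), L = (Submodule.span ℤ (Set.range b)).toAddSubgroup

/-- the covering radius `μ(L, V)`: the infimum of the `c > 0` with `L + cV = ℝⁿ` -/
noncomputable def covRadius {n : ℕ} (L : AddSubgroup (E n)) (V : Set (E n)) : ℝ≥0∞ :=
  ⨅ (c : ℝ) (_ : 0 < c) (_ : (L : Set (E n)) + c • V = univ), ENNReal.ofReal c

/-- the last successive minimum `λₙ(L, B₂ⁿ)`: the infimum of the `r > 0` such that `L` has `n`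
linearly independent vectors of norm at most `r` -/
noncomputable def lamN {n : ℕ} (L : AddSubgroup (E n)) : ℝ≥0∞ :=
  ⨅ (r : ℝ) (_ : 0 < r)
    (_ : ∃ v : Fin n → E n, LinearIndependent ℝ v ∧ ∀ i, v i ∈ L ∧ ‖v i‖ ≤ r), ENNReal.ofReal r

/-- `α(B₂ⁿ, V)`: the supremum over all `n`-lattices of `μ(L, V) / λₙ(L, B₂ⁿ)` -/
noncomputable def alpha {n : ℕ} (V : Set (E n)) : ℝ≥0∞ :=
  ⨆ (L : AddSubgroup (E n)) (_ : IsLattice L), covRadius L V / lamN L

/-- the closed convex sets with nonempty interior: the class `𝒦ⁿ` -/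
def IsK {n : ℕ} (V : Set (E n)) : Prop := IsClosed V ∧ Convex ℝ V ∧ (interior V).Nonempty

/-- `g_α(n, p)`: the supremum over the symmetric sets of Gaussian measure `p` -/
noncomputable def gSym (n : ℕ) (p : ℝ) : ℝ≥0∞ :=
  ⨆ (V : Set (E n)) (_ : IsK V ∧ V = -V ∧ gam n V = ENNReal.ofReal p), alpha V

/-- `g_α^{ns}(n, p)`: the supremum over all sets of Gaussian measure `p` -/
noncomputable def gGen (n : ℕ) (p : ℝ) : ℝ≥0∞ :=
  ⨆ (V : Set (E n)) (_ : IsK V ∧ gam n V = ENNReal.ofReal p), alpha V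

/-- the integer lattice `ℤⁿ` -/
def Zn (n : ℕ) : AddSubgroup (E n) where
  carrier := {x | ∀ i, ∃ z : ℤ, x i = z}
  zero_mem' := fun i => ⟨0, by simp⟩
  add_mem' := by
    intro x y hx hy i
    obtain ⟨a, ha⟩ := hx i
    obtain ⟨b, hb⟩ := hy i
    exact ⟨a + b, by simp [ha, hb]⟩
  neg_mem' := by
    intro x hx i
    obtain ⟨a, ha⟩ := hx i
    exact ⟨-a, by simp [ha]⟩

/-- an unconditional set: invariant under all changes of the signs of the coordinates -/
def Uncond {n : ℕ} (V : Set (E n)) : Prop := ∀ x ∈ V, ∀ y : E n, (∀ i, |y i| = |x i|) → y ∈ V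

/-- the supremum of the covering radius of the integer lattice `ℤⁿ` over the unconditional closed
convex sets of Gaussian measure `p` -/
noncomputable def gUnc (n : ℕ) (p : ℝ) : ℝ≥0∞ :=
  ⨆ (V : Set (E n)) (_ : IsK V ∧ Uncond V ∧ gam n V = ENNReal.ofReal p), covRadius (Zn n) V

end Pool.Agent.U570.GL
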