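import Mathlib
import Pool.Agent.U570.GL.Def
import Pool.Agent.U570.GL.Adj

/-! From an arbitrary lattice and an arbitrary convex set to the integer lattice and an
unconditional convex set. -/

set_option autoImplicit false

namespace Pool.Agent.U570.GL

open MeasureTheory ProbabilityTheory Set InnerProductSpace
open scoped ENNReal Pointwise

variable {n : ℕ}

/-- a rotation which makes given linearly independent vectors triangular -/
theorem exists_rotation {v : Fin n → E n} (hv : LinearIndependent ℝ v) :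
    ∃ T : E n ≃ₗᵢ[ℝ] E n, (∀ i j : Fin n, i < j → T (v i) j = 0) ∧ (∀ i, T (v i) i ≠ 0) ∧
      ∀ i, |T (v i) i| ≤ ‖v i‖ := by
  have h : Module.finrank ℝ (E n) = Fintype.card (Fin n) := by simp
  refine ⟨(gramSchmidtOrthonormalBasis h v).repr, ?_, ?_, ?_⟩
  · intro i j hij
    exact gramSchmidtOrthonormalBasis_inv_triangular' h v hij
  · have hdet := gramSchmidtOrthonormalBasis_det h v
    have hunit : IsUnit ((gramSchmidtOrthonormalBasis h v).toBasis.det v) := by
      rw [← Module.Basis.is_basis_iff_det]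
      exact ⟨hv, hv.span_eq_top_of_card_eq_finrank' (by simp)⟩
    rw [hdet] at hunit
    intro i
    rw [OrthonormalBasis.repr_apply_apply]
    exact (Finset.prod_ne_zero_iff.1 hunit.ne_zero) i (Finset.mem_univ i)
  · intro i
    rw [OrthonormalBasis.repr_apply_apply]
    refine (abs_real_inner_le_norm _ _).trans ?_
    rw [(gramSchmidtOrthonormalBasis h v).orthonormal.1 i, one_mul]

/-- integer multiples of a short number meet every longer interval -/
theorem exists_int {w a s t ρ : ℝ} (hw : w ≠ 0) (hwρ : |w| ≤ ρ) (hst : ρ < t - s) :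
    ∃ m : ℤ, s ≤ a + m * w ∧ a + m * w ≤ t := by
  have hpos : 0 < |w| := abs_pos.2 hw
  have key : ∃ m : ℤ, s ≤ a + m * |w| ∧ a + m * |w| ≤ t := by
    refine ⟨⌈(s - a) / |w|⌉, ?_, ?_⟩
    · have h1 := Int.le_ceil ((s - a) / |w|)
      rw [div_le_iff₀ hpos] at h1
      linarith
    · have h1 := (Int.ceil_lt_add_one ((s - a) / |w|)).le
      have h2 : (⌈(s - a) / |w|⌉ : ℝ) * |w| ≤ ((s - a) / |w| + 1) * |w| :=
        mul_le_mul_of_nonneg_right h1 hpos.le
      have h3 : ((s - a) / |w| + 1) * |w| = s - a + |w| := by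
        field_simp
      linarith
  obtain ⟨m, h1, h2⟩ := key
  rcases abs_cases w with ⟨h, _⟩ | ⟨h, _⟩
  · rw [h] at h1 h2
    exact ⟨m, h1, h2⟩
  · rw [h] at h1 h2
    refine ⟨-m, ?_, ?_⟩
    · push_cast
      linarith
    · push_cast
      linarith

/-- **the main step.** -/
theorem core (hn : 0 < n) {V : Set (E n)} (hVc : IsClosed V) (hV : Convex ℝ V) {p : ℝ} (hp : 0 < p)
    (hpV : ENNReal.ofReal p ≤ gam n V) {L : AddSubgroup (E n)} {v : Fin n → E n}
    (hv : LinearIndependent ℝ v) (hvL : ∀ i, v i ∈ L) {r c : ℝ} (hc : 0 < c)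
    (hvr : ∀ i, ‖v i‖ ≤ r) {q : E n} (hq : q ∉ (L : Set (E n)) + c • V) :
    ∃ V' : Set (E n), IsK V' ∧ Uncond V' ∧ gam n V' = ENNReal.ofReal p ∧
      ∀ x : E n, (∀ i, r / c < 2 * |x i|) → x ∉ V' := by
  obtain ⟨T, hT1, hT2, hT3⟩ := exists_rotation hv
  -- the rotated coordinates
  have hmeas : ∀ f : (E n) ≃ₗᵢ[ℝ] (E n), ∀ S : Set (E n), IsClosed S →
      P n ((fun x : Fin n → ℝ => f (WithLp.toLp 2 x)) ⁻¹' S) = gam n S := by
    intro f S hS
    have h1 : gam n = (P n).map (fun x : Fin n → ℝ => f (WithLp.toLp 2 x)) := by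
      unfold gam
      rw [← stdGaussian_map f, ← map_pi_eq_stdGaussian, Measure.map_map (by fun_prop) (by fun_prop)]
      rfl
    rw [h1, Measure.map_apply (by fun_prop) hS.measurableSet]
  set φ : (Fin n → ℝ) → E n := fun x => T.symm (WithLp.toLp 2 x) with hφ
  have hφc : Continuous φ := by fun_prop
  have hφadd : ∀ x y, φ (x + y) = φ x + φ y := by
    intro x y
    simp [hφ]
  have hφsmul : ∀ (s : ℝ) x, φ (s • x) = s • φ x := by
    intro s x
    simp [hφ]
  have hUc : Convex ℝ (φ ⁻¹' V) := by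
    intro x hx y hy s t hs ht hst
    show φ (s • x + t • y) ∈ V
    rw [hφadd, hφsmul, hφsmul]
    exact hV hx hy hs ht hst
  have hPU : ENNReal.ofReal p ≤ P n (interior (φ ⁻¹' V)) := by
    rw [closure_measure hUc, hφ, hmeas T.symm V hVc]
    exact hpV
  -- the obstruction set
  obtain ⟨W, hWo, hWc, hPW, hWs, hWa⟩ := steiner (U := interior (φ ⁻¹' V))
    (A := {a : Fin n → ℝ | ∃ l ∈ L, φ a = c⁻¹ • (q - l)}) (ρ := r / c) isOpen_interior
    hUc.interior (by
      rintro a ⟨l, hl, hal⟩ haU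
      apply hq
      have haV : φ a ∈ V := interior_subset (s := φ ⁻¹' V) haU
      refine Set.mem_add.2 ⟨l, hl, c • φ a, Set.smul_mem_smul_set haV, ?_⟩
      rw [hal, smul_smul, mul_inv_cancel₀ hc.ne', one_smul]
      abel) (by
      refine ⟨WithLp.ofLp (T (c⁻¹ • q)), 0, L.zero_mem, ?_⟩
      simp [hφ]) (by
      rintro a ⟨l, hl, hal⟩ k s t hst
      have hw : c⁻¹ * T (v k) k ≠ 0 := mul_ne_zero (inv_ne_zero hc.ne') (hT2 k)
      have hw2 : |c⁻¹ * T (v k) k| ≤ r / c := by
        rw [abs_mul, abs_of_pos (inv_pos.2 hc), div_eq_inv_mul]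
        exact mul_le_mul_of_nonneg_left ((hT3 k).trans (hvr k)) (inv_pos.2 hc).le
      obtain ⟨m, hm1, hm2⟩ := exists_int (a := a k) hw hw2 hst
      refine ⟨a + (m * c⁻¹ : ℝ) • WithLp.ofLp (T (v k)), ⟨l - m • v k, ?_, ?_⟩, ?_, ?_, ?_⟩
      · exact L.sub_mem hl (L.zsmul_mem (hvL k) m)
      · have h1 : φ (WithLp.ofLp (T (v k))) = v k := by simp [hφ]
        rw [hφadd, hφsmul, h1, hal, ← Int.cast_smul_eq_zsmul ℝ m (v k)]
        rw [← sub_add, smul_add, smul_smul, mul_comm c⁻¹ (m : ℝ)]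
      · intro i hi
        simp [hT1 k i hi]
      · have : (a + (m * c⁻¹ : ℝ) • WithLp.ofLp (T (v k))) k = a k + m * (c⁻¹ * T (v k) k) := by
          simp
          ring
        rw [this]
        exact hm1
      · have : (a + (m * c⁻¹ : ℝ) • WithLp.ofLp (T (v k))) k = a k + m * (c⁻¹ * T (v k) k) := by
          simp
          ring
        rw [this]
        exact hm2)
  obtain ⟨V', hV'c, hV'v, hV'i, hV's, hV'p, hV'a⟩ :=
    adjust hn hWc hWs hp (hPU.trans hPW) hWa
  have hcont : Continuous (WithLp.ofLp : E n → (Fin n → ℝ)) := PiLp.continuous_ofLp 2 _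
  refine ⟨(WithLp.ofLp : E n → (Fin n → ℝ)) ⁻¹' V', ⟨hV'c.preimage hcont, ?_, ?_⟩, ?_, ?_, ?_⟩
  · intro x hx y hy s t hs ht hst
    show WithLp.ofLp (s • x + t • y) ∈ V'
    rw [WithLp.ofLp_add, WithLp.ofLp_smul, WithLp.ofLp_smul]
    exact hV'v hx hy hs ht hst
  · obtain ⟨x, hx⟩ := hV'i
    refine ⟨WithLp.toLp 2 x, ?_⟩
    exact preimage_interior_subset_interior_preimage hcont (by simpa using hx)
  · intro x hx y hy
    exact hV's _ hx _ hy
  · have := hmeas (LinearIsometryEquiv.refl ℝ (E n)) _ (hV'c.preimage hcont)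
    rw [← this, ← hV'p]
    rfl
  · intro x hx hxV
    exact hV'a _ hx hxV

end Pool.Agent.U570.GL
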