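import Mathlib
import Pool.Agent.U570.GL.Core

/-! Symmetric and general convex sets give the same Gaussian lattice covering constant. -/

set_option autoImplicit false

namespace Pool.Agent.U570.GL

open MeasureTheory ProbabilityTheory Set
open scoped ENNReal Pointwise

variable {n : ℕ}

/-- a set which avoids the far corners covers slowly with respect to the integer lattice -/
theorem cov_lower {V : Set (E n)} {ρ : ℝ} (hρ : 0 < ρ) (hn : 0 < n)
    (hV : ∀ x : E n, (∀ i, ρ < 2 * |x i|) → x ∉ V) :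
    ENNReal.ofReal (ρ⁻¹) ≤ covRadius (Zn n) V := by
  unfold covRadius
  refine le_iInf₂ fun c hc => le_iInf fun hcov => ?_
  apply ENNReal.ofReal_le_ofReal
  have hh : (WithLp.toLp 2 (fun _ : Fin n => (1 / 2 : ℝ)) : E n) ∈ ((Zn n : Set (E n)) + c • V) := by
    rw [hcov]
    exact mem_univ _
  obtain ⟨z, hz, y, hy, hzy⟩ := Set.mem_add.1 hh
  obtain ⟨x, hx, rfl⟩ := Set.mem_smul_set.1 hy
  by_contra hlt
  push Not at hlt
  refine hV x (fun i => ?_) hx
  obtain ⟨m, hm⟩ := hz i
  have h1 : z i + c * x i = 1 / 2 := by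
    have := congrArg (fun w : E n => w i) hzy
    simpa using this
  rw [hm] at h1
  have h2 : 1 / 2 ≤ |c * x i| := by
    have h3 : c * x i = 1 / 2 - m := by linarith
    rw [h3]
    rcases le_or_gt m 0 with h | h
    · have h4 : (m : ℝ) ≤ 0 := by exact_mod_cast h
      rw [abs_of_nonneg (by linarith)]
      linarith
    · have h4 : (1 : ℝ) ≤ m := by exact_mod_cast h
      rw [abs_of_nonpos (by linarith)]
      linarith
  rw [abs_mul, abs_of_pos hc] at h2
  -- `1/2 ≤ c |x i|`, `c < 1/ρ`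
  have h5 : c * ρ < 1 := by
    have := mul_lt_mul_of_pos_right hlt hρ
    rwa [inv_mul_cancel₀ hρ.ne'] at this
  by_contra hcon
  push Not at hcon
  have h6 : c * (2 * |x i|) ≤ c * ρ := mul_le_mul_of_nonneg_left hcon hc.le
  linarith

/-- for each admissible radius the covering radius is controlled by the unconditional sets -/
theorem cov_upper (hn : 0 < n) {V : Set (E n)} (hVc : IsClosed V) (hV : Convex ℝ V) {p : ℝ}
    (hp : 0 < p) (hpV : ENNReal.ofReal p ≤ gam n V) {L : AddSubgroup (E n)} {v : Fin n → E n}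
    (hv : LinearIndependent ℝ v) {r : ℝ} (hr : 0 < r) (hvL : ∀ i, v i ∈ L ∧ ‖v i‖ ≤ r) :
    covRadius L V ≤ gUnc n p * ENNReal.ofReal r := by
  by_contra hcon
  push Not at hcon
  obtain ⟨c, hc0, hc1, hc2⟩ := ENNReal.lt_iff_exists_real_btwn.1 hcon
  have hcpos : 0 < c := by
    rcases hc0.lt_or_eq with h | h
    · exact h
    · rw [← h] at hc1
      simp at hc1
  have hnc : (L : Set (E n)) + c • V ≠ univ := by
    intro h
    have : covRadius L V ≤ ENNReal.ofReal c := by
      unfold covRadius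
      exact iInf_le_of_le c (iInf_le_of_le hcpos (iInf_le _ h))
    exact absurd hc2 (not_lt.2 this)
  obtain ⟨q, hq⟩ := (ne_univ_iff_exists_notMem _).1 hnc
  obtain ⟨V', h1, h2, h3, h4⟩ := core hn hVc hV hp hpV hv (fun i => (hvL i).1) hcpos
    (fun i => (hvL i).2) hq
  have h5 : ENNReal.ofReal ((r / c)⁻¹) ≤ gUnc n p := by
    refine (cov_lower (div_pos hr hcpos) hn h4).trans ?_
    unfold gUnc
    exact le_iSup₂_of_le (f := fun V (_ : IsK V ∧ Uncond V ∧ gam n V = ENNReal.ofReal p) =>
      covRadius (Zn n) V) V' ⟨h1, h2, h3⟩ le_rfl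
  rw [inv_div] at h5
  have h6 : ENNReal.ofReal c = ENNReal.ofReal (c / r) * ENNReal.ofReal r := by
    rw [← ENNReal.ofReal_mul (div_pos hcpos hr).le, div_mul_cancel₀ _ hr.ne']
  rw [h6] at hc1
  exact absurd hc1 (not_lt.2 (mul_le_mul_left h5 _))

/-- every lattice has `n` linearly independent vectors -/
theorem exists_adm {L : AddSubgroup (E n)} (hL : IsLattice L) :
    ∃ r : ℝ, 0 < r ∧ ∃ v : Fin n → E n, LinearIndependent ℝ v ∧ ∀ i, v i ∈ L ∧ ‖v i‖ ≤ r := by
  obtain ⟨b, rfl⟩ := hL
  refine ⟨1 + ∑ i, ‖b i‖, by positivity, b, b.linearIndependent, fun i => ⟨?_, ?_⟩⟩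
  · exact Submodule.subset_span (mem_range_self i)
  · have := Finset.single_le_sum (f := fun i => ‖b i‖) (fun j _ => norm_nonneg (b j)) (Finset.mem_univ i)
    linarith

theorem alpha_le (hn : 0 < n) {V : Set (E n)} (hVc : IsClosed V) (hV : Convex ℝ V) {p : ℝ}
    (hp : 0 < p) (hpV : ENNReal.ofReal p ≤ gam n V) : alpha V ≤ gUnc n p := by
  unfold alpha
  refine iSup₂_le fun L hL => ?_
  by_cases htop : gUnc n p = ∞
  · rw [htop]
    exact le_top
  apply ENNReal.div_le_of_le_mul
  by_cases h0 : gUnc n p = 0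
  · obtain ⟨r, hr, v, hv, hvL⟩ := exists_adm hL
    have := cov_upper hn hVc hV hp hpV hv hr hvL
    rw [h0, zero_mul] at this
    exact this.trans bot_le
  · have h1 : covRadius L V / gUnc n p ≤ lamN L := by
      unfold lamN
      refine le_iInf₂ fun r hr => le_iInf fun hv => ?_
      obtain ⟨v, hv, hvL⟩ := hv
      apply ENNReal.div_le_of_le_mul
      rw [mul_comm]
      exact cov_upper hn hVc hV hp hpV hv hr hvL
    have h2 := (ENNReal.div_le_iff_le_mul (Or.inl h0) (Or.inl htop)).1 h1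
    rwa [mul_comm] at h2

/-- the integer lattice is a lattice -/
theorem isLattice_Zn : IsLattice (Zn n) := by
  refine ⟨(EuclideanSpace.basisFun (Fin n) ℝ).toBasis, ?_⟩
  ext x
  rw [Submodule.mem_toAddSubgroup, Module.Basis.mem_span_iff_repr_mem]
  constructor
  · intro h i
    obtain ⟨z, hz⟩ := h i
    exact ⟨z, by simp [hz]⟩
  · intro h i
    obtain ⟨z, hz⟩ := h i
    refine ⟨z, ?_⟩
    simpa using hz.symm

theorem lamN_Zn_le : lamN (Zn n) ≤ 1 := by
  unfold lamN
  refine iInf_le_of_le 1 (iInf_le_of_le one_pos (iInf_le_of_le ?_ (by simp)))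
  refine ⟨EuclideanSpace.basisFun (Fin n) ℝ, ?_, fun i => ⟨?_, ?_⟩⟩
  · exact (EuclideanSpace.basisFun (Fin n) ℝ).orthonormal.linearIndependent
  · intro j
    by_cases h : j = i
    · exact ⟨1, by simp [h]⟩
    · exact ⟨0, by simp [h]⟩
  · rw [(EuclideanSpace.basisFun (Fin n) ℝ).orthonormal.1 i]

theorem gUnc_le_gSym (p : ℝ) : gUnc n p ≤ gSym n p := by
  unfold gUnc
  refine iSup₂_le fun V hV => ?_
  obtain ⟨hK, hU, hp⟩ := hV
  have hsym : V = -V := by
    ext x
    rw [Set.mem_neg]
    constructor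
    · intro hx
      exact hU x hx (-x) fun i => by simp
    · intro hx
      exact hU (-x) hx x fun i => by simp
  have h1 : covRadius (Zn n) V ≤ covRadius (Zn n) V / lamN (Zn n) := by
    calc covRadius (Zn n) V = covRadius (Zn n) V / 1 := by rw [div_one]
      _ ≤ covRadius (Zn n) V / lamN (Zn n) := ENNReal.div_le_div_left lamN_Zn_le _
  have h2 : covRadius (Zn n) V / lamN (Zn n) ≤ alpha V := by
    unfold alpha
    exact le_iSup₂_of_le (f := fun L (_ : IsLattice L) => covRadius L V / lamN L) (Zn n)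
      isLattice_Zn le_rfl
  have h3 : alpha V ≤ gSym n p := by
    unfold gSym
    exact le_iSup₂_of_le (f := fun V (_ : IsK V ∧ V = -V ∧ gam n V = ENNReal.ofReal p) => alpha V)
      V ⟨hK, hsym, hp⟩ le_rfl
  exact h1.trans (h2.trans h3)

theorem gSym_le_gGen (p : ℝ) : gSym n p ≤ gGen n p := by
  unfold gSym gGen
  refine iSup₂_le fun V hV => ?_
  exact le_iSup₂_of_le (f := fun V (_ : IsK V ∧ gam n V = ENNReal.ofReal p) => alpha V)
      V ⟨hV.1, hV.2.2⟩ le_rfl

theorem gGen_le_gUnc (hn : 0 < n) {p : ℝ} (hp : 0 < p) : gGen n p ≤ gUnc n p := by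
  unfold gGen
  refine iSup₂_le fun V hV => ?_
  exact alpha_le hn hV.1.1 hV.1.2.1 hp hV.2.ge

/-- **the symmetric and the general constant agree, in every dimension and for every value of the
Gaussian measure**, and both are attained by the integer lattice and unconditional sets. -/
theorem main (n : ℕ) (hn : 0 < n) (p : ℝ) (hp : 0 < p) :
    gSym n p = gGen n p ∧ gGen n p = gUnc n p := by
  have h1 := gUnc_le_gSym (n := n) p
  have h2 := gSym_le_gGen (n := n) p
  have h3 := gGen_le_gUnc hn hp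
  exact ⟨le_antisymm h2 (h3.trans h1), le_antisymm h3 (h1.trans h2)⟩

end Pool.Agent.U570.GL
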